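import Pool.Agent.Y213.EC.Geo

/-! The classes of the points, with reductions at a given place. -/

set_option autoImplicit false

namespace Pool.Agent.Y213.I

open MvPolynomial NumberField Pool.Agent.H901R3.MS WeierstrassCurve Pool.Agent.Y213.EC

/-- reduction of the value of a polynomial at a place, the last variables in any ring -/
theorem loc_valR {K k R : Type} [Field K] [Field k] [CommRing R] (v : Place K k)
    (φ : 𝓞 K →+* k) (hv : ∀ x : 𝓞 K, (x : K) ∈ v.A ∧ v.r (x : K) = φ x)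
    (ι : R →+* K) (ψ : R →+* k) (hι : ∀ x : R, ι x ∈ v.A ∧ v.r (ι x) = ψ x) {r n : ℕ}
    (V : Fin r → Fin 3 → K) (W : Fin r → Fin 3 → k)
    (c : Fin r → K) (hc : ∀ i j, c i * V i j ∈ v.A ∧ v.r (c i * V i j) = W i j)
    (F : Pol (𝓞 K) r n) (d : Fin r → ℕ) (hF : MHomog F d) (t : Fin n → R) :
    (∏ i, c i ^ d i) * vl (algebraMap (𝓞 K) K) F V (fun i => ι (t i)) ∈ v.A ∧
    v.r ((∏ i, c i ^ d i) * vl (algebraMap (𝓞 K) K) F V (fun i => ι (t i))) =
      vl φ F W (fun i => ψ (t i)) := by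
  let ψ' : 𝓞 K →+* v.A :=
    { toFun := fun x => ⟨(x : K), (hv x).1⟩
      map_one' := by ext; simp
      map_mul' := fun x y => by ext; simp
      map_zero' := by ext; simp
      map_add' := fun x y => by ext; simp }
  have hψ1 : v.A.subtype.comp ψ' = algebraMap (𝓞 K) K := by
    ext x
    rfl
  have hψ2 : v.ρ.comp ψ' = φ := by
    ext x
    have h1 := (hv x).2
    rw [v.r_of (hv x).1] at h1
    exact h1
  set V' : Fin r → Fin 3 → v.A := fun i j => ⟨c i * V i j, (hc i j).1⟩ with hV'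
  set x : v.A := vl ψ' F V' (fun i => ⟨ι (t i), (hι (t i)).1⟩) with hx
  have hxK : (x : K) = (∏ i, c i ^ d i) *
      vl (algebraMap (𝓞 K) K) F V (fun i => ι (t i)) := by
    have h1 := vl_map ψ' v.A.subtype F V' (fun i => ⟨ι (t i), (hι (t i)).1⟩)
    have h2 : v.A.subtype x = (x : K) := rfl
    rw [← h2, hx, h1, hψ1, ← vl_scale _ F d hF]
    rfl
  have hval : v.ρ x = vl φ F W (fun i => ψ (t i)) := by
    rw [hx, vl_map, hψ2]
    congr 1
    · funext i j
      have h3 := (hc i j).2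
      rw [v.r_of (hc i j).1] at h3
      exact h3
    · funext i
      have h3 := (hι (t i)).2
      rw [v.r_of (hι (t i)).1] at h3
      exact h3
  rw [← hxK]
  exact ⟨x.2, by rw [v.r_of x.2]; exact hval⟩

/-- the `K`-points of `E ^ r` fall in at most `L ^ R` classes; at the places at which `L` kills the
group of the reduced curve, the points of a class have the same reduction -/
theorem classesR (K : Type) [Field K] [NumberField K] (r : ℕ) (a b : 𝓞 K)
    (hd : Disc (a : K) (b : K)) : ∃ R : ℕ, ∀ L : ℕ, 1 ≤ L →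
    ∃ (Q : Type) (_ : Fintype Q), Fintype.card Q ≤ L ^ R ∧ ∃ cls : (Fin r → Fin 3 → K) → Q,
    ∀ (p : ℕ) [Fact p.Prime] (φ : 𝓞 K →+* ZMod p), Disc (φ a) (φ b) →
    (∀ P : Pt (φ a) (φ b), L • P = 0) → ∀ (v : Place K (ZMod p)),
    (∀ x : 𝓞 K, (x : K) ∈ v.A ∧ v.r (x : K) = φ x) → ∃ V' : Q → Fin r → Fin 3 → ZMod p,
      ∀ V : Fin r → Fin 3 → K, (∀ i, OnK (a : K) (b : K) (V i)) →
      (∀ i, OnK (φ a) (φ b) (V' (cls V) i)) ∧
      ∃ c : Fin r → K, (∀ i, c i ≠ 0) ∧ ∀ i j, c i * V i j ∈ v.A ∧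
        v.r (c i * V i j) = V' (cls V) i j := by
  classical
  obtain ⟨R, hR⟩ := t_M2 _ (t_M1K K (a : K) (b : K) hd)
  refine ⟨R * r, fun L hL => ?_⟩
  obtain ⟨A, hAc, hAr⟩ := hR L hL
  choose κ₀ hκ₀ δ₀ hδ₀ using hAr
  have hst : ∀ V : Fin r → Fin 3 → K, ∃ P : Fin r → Pt (a : K) (b : K),
      (∀ i, OnK (a : K) (b : K) (V i)) → ∃ c : Fin r → K, (∀ i, c i ≠ 0) ∧
        ∀ i j, V i j = c i * rep (P i) j := by
    intro V
    by_cases hV : ∀ i, OnK (a : K) (b : K) (V i)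
    · have h1 : ∀ i, ∃ (P : Pt (a : K) (b : K)) (c : K), c ≠ 0 ∧ ∀ j, V i j = c * rep P j :=
        fun i => t_PTSK K a b (V i) hd (hV i)
      choose P c hc0 hc1 using h1
      exact ⟨P, fun _ => ⟨c, hc0, hc1⟩⟩
    · exact ⟨fun _ => 0, fun h => absurd h hV⟩
  choose PP hPP using hst
  refine ⟨Fin r → A, inferInstance, ?_, fun V i => ⟨κ₀ (PP V i), hκ₀ (PP V i)⟩, ?_⟩
  · rw [Fintype.card_fun, Fintype.card_fin, Fintype.card_coe, pow_mul]
    exact Nat.pow_le_pow_left hAc r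
  intro p _ φ hdφ hkill v hv
  obtain ⟨red, hred⟩ := exists_red v (a := (a : K)) (b := (b : K)) (a' := φ a) (b' := φ b)
    (hv a).1 (hv b).1 (hv a).2 (hv b).2 hdφ
  have hredL : ∀ κ δ : Pt (a : K) (b : K), red (κ + L • δ) = red κ := by
    intro κ δ
    rw [map_add, map_nsmul, hkill, add_zero]
  refine ⟨fun q i => rep (red (q i).1), ?_⟩
  intro V hV
  have hP : ∀ i, red (PP V i) = red (κ₀ (PP V i)) := by
    intro i
    conv_lhs => rw [hδ₀ (PP V i)]
    exact hredL _ _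
  obtain ⟨c₁, hc₁, hcv⟩ := hPP V hV
  have h3 : ∀ i, ∃ z : K, z ≠ 0 ∧ ∀ j, z * rep (PP V i) j ∈ v.A ∧
      v.r (z * rep (PP V i) j) = rep (red (PP V i)) j := fun i =>
    rep_red v (hv a).1 (hv b).1 (hv a).2 (hv b).2 hred (PP V i)
  choose z hz0 hz1 using h3
  refine ⟨fun i => onK_rep _, fun i => z i * (c₁ i)⁻¹, ?_, ?_⟩
  · intro i
    exact mul_ne_zero (hz0 i) (inv_ne_zero (hc₁ i))
  · intro i j
    have h4 : z i * (c₁ i)⁻¹ * V i j = z i * rep (PP V i) j := by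
      rw [hcv i j]
      field_simp [hc₁ i]
    rw [h4]
    refine ⟨(hz1 i j).1, ?_⟩
    rw [(hz1 i j).2, hP i]

end Pool.Agent.Y213.I
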