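import Pool.Agent.Y213.I.TrA
import Pool.Agent.Y213.I.Cls
import Pool.Agent.Y213.EC.Main

/-! Integral points on closed subvarieties of `E ^ r × 𝔸 ^ n`. -/

set_option autoImplicit false

namespace Pool.Agent.Y213.I

open MvPolynomial NumberField Pool.Agent.H901R3.MS WeierstrassCurve Pool.Agent.Y213.EC

/-- the homomorphism on the `S`-integers -/
theorem exists_psi (K : Type) [Field K] [NumberField K] (R : Type) [CommRing R]
    [Algebra (𝓞 K) R] [Algebra R K] [IsScalarTower (𝓞 K) R K] (s : 𝓞 K) (hs : s ≠ 0)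
    [IsLocalization.Away s R] : ∃ p₀ : ℕ, ∀ (p : ℕ) [Fact p.Prime], p₀ ≤ p →
    ∀ (φ : 𝓞 K →+* ZMod p) (v : Place K (ZMod p)),
      (∀ x : 𝓞 K, (x : K) ∈ v.A ∧ v.r (x : K) = φ x) →
      ∃ ψ : R →+* ZMod p, ∀ x : R, algebraMap R K x ∈ v.A ∧ v.r (algebraMap R K x) = ψ x := by
  refine ⟨Ideal.absNorm (Ideal.span {s}) + 1, fun p _ hp φ v hv => ?_⟩
  have hφs : φ s ≠ 0 := by
    intro h0
    obtain ⟨w, hw⟩ : s ∣ ((Ideal.absNorm (Ideal.span {s}) : ℕ) : 𝓞 K) :=
      Ideal.mem_span_singleton.1 (Ideal.absNorm_mem _)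
    have h1 := congrArg φ hw
    rw [map_natCast, map_mul, h0, zero_mul, ZMod.natCast_eq_zero_iff] at h1
    have h2 : 0 < Ideal.absNorm (Ideal.span {s}) := by
      rw [Nat.pos_iff_ne_zero, Ne, Ideal.absNorm_eq_zero_iff, Ideal.span_singleton_eq_bot]
      exact hs
    have := Nat.le_of_dvd h2 h1
    omega
  refine ⟨IsLocalization.Away.lift s (g := φ) hφs.isUnit, fun x => ?_⟩
  obtain ⟨⟨a, m⟩, hm⟩ := IsLocalization.surj (Submonoid.powers s) x
  obtain ⟨k, hk⟩ := m.2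
  have hmk : (m : 𝓞 K) = s ^ k := hk.symm
  simp only [hmk] at hm
  have h1 := congrArg (algebraMap R K) hm
  rw [map_mul, ← IsScalarTower.algebraMap_apply, ← IsScalarTower.algebraMap_apply] at h1
  have hsK : algebraMap (𝓞 K) K (s ^ k) ≠ 0 := by
    rw [Ne, FaithfulSMul.algebraMap_eq_zero_iff]
    exact pow_ne_zero _ hs
  have h2 : algebraMap R K x = algebraMap (𝓞 K) K a / algebraMap (𝓞 K) K (s ^ k) := by
    rw [eq_div_iff hsK]
    exact h1
  have h3 := hv a
  have h4 := hv (s ^ k)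
  have h5 : v.r (algebraMap (𝓞 K) K (s ^ k)) ≠ 0 := by
    have h6 : v.r (algebraMap (𝓞 K) K (s ^ k)) = φ (s ^ k) := h4.2
    rw [h6, map_pow]
    exact pow_ne_zero _ hφs
  refine ⟨?_, ?_⟩
  · rw [h2]
    exact v.div_mem h3.1 h5
  · rw [h2, v.r_div h3.1 h5]
    have h6 : v.r (algebraMap (𝓞 K) K (s ^ k)) = φ (s ^ k) := h4.2
    have h7 : v.r (algebraMap (𝓞 K) K a) = φ a := h3.2
    rw [h6] at h5
    rw [h6, h7, div_eq_iff h5]
    have h8 := congrArg (IsLocalization.Away.lift s (g := φ) hφs.isUnit : R →+* ZMod p) hm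
    rw [map_mul, IsLocalization.Away.lift_eq, IsLocalization.Away.lift_eq] at h8
    exact h8.symm

theorem main (K : Type) [Field K] [NumberField K] (r n q : ℕ) (a b : 𝓞 K)
    (hd : Disc (a : K) (b : K)) (G : Fin q → Pol (𝓞 K) r n)
    (d : Fin q → Fin r → ℕ) (hG : ∀ e, MHomog (G e) (d e)) (σ : K →+* ℂ) (D : ℕ)
    (hns : ∀ V : Fin r → Fin 3 → ℂ, (∀ i, OnK (σ a) (σ b) (V i)) →
      {t : Fin n → ℂ | ∀ e, vl (toC σ) (G e) V t = 0}.encard ≤ D)
    (R : Type) [CommRing R] [Algebra (𝓞 K) R] [Algebra R K] [IsScalarTower (𝓞 K) R K]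
    (s : 𝓞 K) (hs : s ≠ 0) [IsLocalization.Away s R] (ε : ℝ) (hε : 0 < ε) :
    ∃ C : ℝ, ∀ Y : ℕ, 1 ≤ Y → ∀ T : Finset (Fin n → R),
      (∀ t ∈ T, ∃ V : Fin r → Fin 3 → K, (∀ i, OnK (a : K) (b : K) (V i)) ∧
        ∀ e, vl (algebraMap (𝓞 K) K) (G e) V (fun i => algebraMap R K (t i)) = 0) →
      (∀ t ∈ T, ∀ t' ∈ T, t ≠ t' → ENat.card (R ⧸ Ideal.span (Set.range (t - t'))) ≤ Y) →
      (T.card : ℝ) ≤ C * (Y : ℝ) ^ ε := by
  classical
  obtain ⟨R₀, hcl⟩ := classesR K r a b hd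
  obtain ⟨p₁, hp₁⟩ := trfA K r n a b (Fin q) G σ D (by
    intro V hV x hx
    by_contra hcon
    push Not at hcon
    have hinj : Function.Injective x := by
      intro l l' hll
      by_contra hne
      exact hcon l l' hne hll
    have h1 : Set.range x ⊆ {t : Fin n → ℂ | ∀ e, vl (toC σ) (G e) V t = 0} := by
      rintro _ ⟨l, rfl⟩
      exact fun e => hx l e
    have h2 := (Set.encard_le_encard h1).trans (hns V hV)
    rw [← Set.image_univ, hinj.encard_image, Set.encard_univ, ENat.card_eq_coe_fintype_card,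
      Fintype.card_fin] at h2
    have h3 : D + 1 ≤ D := by exact_mod_cast h2
    omega)
  obtain ⟨p₂, hp₂⟩ := exists_psi K R s hs
  set C₀ : ℕ := (D + 1) * (D + 1) + 1 with hC₀
  obtain ⟨H₀, hH₀, hmain⟩ := primesE K a b hd (p₁ + p₂) R₀ C₀ ε hε
  refine ⟨D * (H₀ : ℝ) ^ ε, fun Y hY T hT hTT => ?_⟩
  set H : ℕ := Y * H₀ with hH
  have hHH₀ : H₀ ≤ H := Nat.le_mul_of_pos_left _ hY
  have hYH : Y ≤ H := Nat.le_mul_of_pos_right _ (by omega)
  obtain ⟨TT, L, hL, hTp, hprod, hLR⟩ := hmain H hHH₀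
  obtain ⟨Q, _, hQ, cls, hcls⟩ := hcl L hL
  -- the points over the elements of `T`
  have hV : ∀ t : Fin n → R, ∃ V : Fin r → Fin 3 → K, t ∈ T →
      (∀ i, OnK (a : K) (b : K) (V i)) ∧
      ∀ e, vl (algebraMap (𝓞 K) K) (G e) V (fun i => algebraMap R K (t i)) = 0 := by
    intro t
    by_cases ht : t ∈ T
    · obtain ⟨V, hV⟩ := hT t ht
      exact ⟨V, fun _ => hV⟩
    · exact ⟨0, fun h => absurd h ht⟩
  choose V hV using hV
  have key : ∀ x : Q, ∃ Z : Finset (Fin n → R), Z.card ≤ D ∧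
      {t | t ∈ T ∧ cls (V t) = x} ⊆ (Z : Set (Fin n → R)) := by
    intro x
    apply pick
    intro f hf
    by_contra hcon
    push Not at hcon
    -- the indices
    let N : Fin (D + 1) × Fin (D + 1) → ℕ := fun q =>
      if q.1 = q.2 then 1 else Nat.card (R ⧸ Ideal.span (Set.range (f q.1 - f q.2)))
    have hfin : ∀ q : Fin (D + 1) × Fin (D + 1), q.1 ≠ q.2 →
        Finite (R ⧸ Ideal.span (Set.range (f q.1 - f q.2))) ∧
        Nat.card (R ⧸ Ideal.span (Set.range (f q.1 - f q.2))) ≤ Y := by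
      intro q hq
      have h1 := hTT _ (hf q.1).1 _ (hf q.2).1 (hcon _ _ hq)
      haveI : Finite (R ⧸ Ideal.span (Set.range (f q.1 - f q.2))) := by
        rw [← ENat.card_lt_top]
        exact lt_of_le_of_lt h1 (ENat.coe_lt_top Y)
      refine ⟨inferInstance, ?_⟩
      rw [ENat.card_eq_coe_natCard] at h1
      exact_mod_cast h1
    have hN1 : ∀ q, N q ≠ 0 ∧ N q ≤ Y := by
      intro q
      simp only [N]
      split_ifs with hq
      · exact ⟨one_ne_zero, hY⟩
      · obtain ⟨h1, h2⟩ := hfin q hq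
        haveI := h1
        exact ⟨Nat.card_pos.ne', h2⟩
    have hdvd : ∏ p ∈ TT, p ∣ ∏ q, N q := by
      apply Finset.prod_primes_dvd
      · intro p hp
        obtain ⟨_, hF, _⟩ := hTp p hp
        exact hF.out.prime
      · intro p hp
        obtain ⟨hp1, hF, φ, hdφ, hkill⟩ := hTp p hp
        haveI := hF
        obtain ⟨v, hv⟩ := exists_place K (ZMod p) p hF.out.ne_zero φ
        obtain ⟨ψ, hψ⟩ := hp₂ p (by omega) φ v hv
        obtain ⟨V', hV'⟩ := hcls p φ hdφ hkill v hv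
        have h3 := (hV' (V (f 0)) (hV (f 0) (hf 0).1).1).1
        rw [(hf 0).2] at h3
        obtain ⟨l, l', hll, hl⟩ := hp₁ p hF.out (by omega) (ZMod p) φ (V' x) h3
          (fun l i => ψ (f l i)) (fun l e => by
            obtain ⟨_, c, hc0, hc⟩ := hV' (V (f l)) (hV (f l) (hf l).1).1
            have h5 := (loc_valR v φ hv (algebraMap R K) ψ hψ (V (f l)) _ c hc (G e) (d e)
              (hG e) (f l)).2
            rw [(hV (f l) (hf l).1).2 e, mul_zero, Place.r_zero, (hf l).2] at h5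
            exact h5.symm)
        refine Dvd.dvd.trans ?_ (Finset.dvd_prod_of_mem N (Finset.mem_univ (l, l')))
        have hNe : N (l, l') = Nat.card (R ⧸ Ideal.span (Set.range (f l - f l'))) := by
          simp only [N]
          rw [if_neg hll]
        rw [hNe]
        have hle : Ideal.span (Set.range (f l - f l')) ≤ RingHom.ker ψ := by
          rw [Ideal.span_le]
          rintro _ ⟨i, rfl⟩
          rw [SetLike.mem_coe, RingHom.mem_ker, Pi.sub_apply, map_sub]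
          exact sub_eq_zero.2 (congrFun hl i)
        obtain ⟨hfi, _⟩ := hfin (l, l') hll
        haveI := hfi
        have h6 : ((Nat.card (R ⧸ Ideal.span (Set.range (f l - f l'))) : ℕ) : R) ∈
            Ideal.span (Set.range (f l - f l')) := by
          rw [← Ideal.Quotient.eq_zero_iff_mem, map_natCast, ← nsmul_one]
          exact card_nsmul_eq_zero'
        have h7 := hle h6
        rw [RingHom.mem_ker, map_natCast, ZMod.natCast_eq_zero_iff] at h7
        exact h7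
    have hpos : 0 < ∏ q, N q := Finset.prod_pos fun q _ => Nat.pos_of_ne_zero (hN1 q).1
    have h8 : ∏ p ∈ TT, p ≤ Y ^ ((D + 1) * (D + 1)) := by
      refine (Nat.le_of_dvd hpos hdvd).trans ?_
      calc ∏ q, N q ≤ ∏ _q : Fin (D + 1) × Fin (D + 1), Y :=
            Finset.prod_le_prod' fun q _ => (hN1 q).2
        _ = Y ^ ((D + 1) * (D + 1)) := by
            rw [Finset.prod_const, Finset.card_univ, Fintype.card_prod, Fintype.card_fin]
    have h9 : Y ^ ((D + 1) * (D + 1)) ≤ (C₀ * (H + 1)) ^ C₀ := by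
      have h10 : Y ≤ C₀ * (H + 1) := by
        have : 1 ≤ C₀ := by omega
        nlinarith
      calc Y ^ ((D + 1) * (D + 1)) ≤ (C₀ * (H + 1)) ^ ((D + 1) * (D + 1)) :=
            Nat.pow_le_pow_left h10 _
        _ ≤ (C₀ * (H + 1)) ^ C₀ := Nat.pow_le_pow_right (by positivity) (by omega)
    omega
  choose Z hZ1 hZ2 using key
  have hsub : T ⊆ (Finset.univ : Finset Q).biUnion Z := by
    intro t ht
    rw [Finset.mem_biUnion]
    exact ⟨cls (V t), Finset.mem_univ _, hZ2 (cls (V t)) ⟨ht, rfl⟩⟩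
  have h1 : T.card ≤ D * L ^ R₀ := by
    refine (Finset.card_le_card hsub).trans (Finset.card_biUnion_le.trans ?_)
    calc ∑ x : Q, (Z x).card ≤ ∑ _x : Q, D := Finset.sum_le_sum fun x _ => hZ1 x
      _ = Fintype.card Q * D := by rw [Finset.sum_const, Finset.card_univ, smul_eq_mul]
      _ ≤ L ^ R₀ * D := Nat.mul_le_mul_right _ hQ
      _ = D * L ^ R₀ := mul_comm _ _
  have h2 : ((T.card : ℕ) : ℝ) ≤ D * (L : ℝ) ^ R₀ := by exact_mod_cast h1
  refine h2.trans ?_
  rw [mul_assoc]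
  refine mul_le_mul_of_nonneg_left (hLR.trans (le_of_eq ?_)) (Nat.cast_nonneg _)
  rw [hH, Nat.cast_mul, mul_comm, Real.mul_rpow (Nat.cast_nonneg _) (Nat.cast_nonneg _)]

end Pool.Agent.Y213.I
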