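import Pool.Agent.Y213.EC.Trans

/-! Transfer of the finiteness of the affine fibres from `ℂ` to fields of large characteristic. -/

set_option autoImplicit false

namespace Pool.Agent.Y213.I

open MvPolynomial NumberField Pool.Agent.H901R3.MS WeierstrassCurve Pool.Agent.Y213.EC

/-- among `D + 1` common zeros of the `G j (V; x)` two are equal: the fibre has at
most `D` points in affine space -/
def AtMostA {O k : Type} [CommRing O] [Field k] (φ : O →+* k) {r n : ℕ} {J : Type}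
    (G : J → Pol O r n) (V : Fin r → Fin 3 → k) (D : ℕ) : Prop :=
  ∀ x : Fin (D + 1) → Fin n → k, (∀ l j, vl φ (G j) V (x l) = 0) →
    ∃ l l' : Fin (D + 1), l ≠ l' ∧ x l = x l'

/-- the variables: `V`, `W`, `x`, `z` -/
abbrev VarA (r n D : ℕ) : Type :=
  ((Fin r × Fin 3) ⊕ (Fin r × Fin 3)) ⊕
    ((Fin (D + 1) × Fin n) ⊕ ((Fin (D + 1) × Fin (D + 1)) × Fin n))

section

variable {r n D : ℕ}

def aV (ij : Fin r × Fin 3) : VarA r n D := Sum.inl (Sum.inl ij)
def aW (ij : Fin r × Fin 3) : VarA r n D := Sum.inl (Sum.inr ij)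
def ax (l : Fin (D + 1) × Fin n) : VarA r n D := Sum.inr (Sum.inl l)
def az (l : (Fin (D + 1) × Fin (D + 1)) × Fin n) : VarA r n D := Sum.inr (Sum.inr l)

/-- the embedding of the variables of `G` -/
def embA (l : Fin (D + 1)) : ((Fin r × Fin 3) ⊕ Fin n) → VarA r n D :=
  Sum.elim aV (fun i => ax (l, i))

end

/-- the equations in terms of the values -/
def SolA {O k : Type} [CommRing O] [Field k] (φ : O →+* k) {r n : ℕ} (a b : O) {J : Type}
    (G : J → Pol O r n) (D : ℕ) (x : VarA r n D → k) : Prop :=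
  (∀ i : Fin r, x (aV (i, 1)) ^ 2 * x (aV (i, 2)) - (x (aV (i, 0)) ^ 3 +
      φ a * x (aV (i, 0)) * x (aV (i, 2)) ^ 2 + φ b * x (aV (i, 2)) ^ 3) = 0) ∧
  (∀ i : Fin r, (∑ j : Fin 3, x (aV (i, j)) * x (aW (i, j))) - 1 = 0) ∧
  (∀ q : {q : Fin (D + 1) × Fin (D + 1) // q.1 ≠ q.2}, (∑ i : Fin n,
      (x (ax (q.1.1, i)) - x (ax (q.1.2, i))) * x (az (q.1, i))) - 1 = 0) ∧
  (∀ jl : J × Fin (D + 1), eval₂ φ (x ∘ embA jl.2) (G jl.1) = 0)

/-- the equations -/
noncomputable def eqsA {O : Type} [CommRing O] {r n : ℕ} (a b : O) {J : Type}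
    (G : J → Pol O r n) (D : ℕ) : Set (MvPolynomial (VarA r n D) O) :=
  (Set.range fun i : Fin r => X (aV (i, 1)) ^ 2 * X (aV (i, 2)) - (X (aV (i, 0)) ^ 3 +
      C a * X (aV (i, 0)) * X (aV (i, 2)) ^ 2 + C b * X (aV (i, 2)) ^ 3)) ∪
  ((Set.range fun i : Fin r => (∑ j : Fin 3, X (aV (i, j)) * X (aW (i, j))) - 1) ∪
  ((Set.range fun q : {q : Fin (D + 1) × Fin (D + 1) // q.1 ≠ q.2} => (∑ i : Fin n,
      (X (ax (q.1.1, i)) - X (ax (q.1.2, i))) * X (az (q.1, i))) - 1) ∪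
  (Set.range fun jl : J × Fin (D + 1) => rename (embA jl.2) (G jl.1))))

lemma eqsA_iff {O k : Type} [CommRing O] [Field k] (φ : O →+* k) {r n : ℕ} (a b : O)
    {J : Type} (G : J → Pol O r n) (D : ℕ) (x : VarA r n D → k) :
    (∀ f ∈ Ideal.span (eqsA a b G D), eval₂ φ x f = 0) ↔ SolA φ a b G D x := by
  have h1 : (∀ f ∈ Ideal.span (eqsA a b G D), eval₂ φ x f = 0) ↔ ∀ f ∈ eqsA a b G D,
      eval₂Hom φ x f = 0 := by
    constructor
    · intro h f hf
      exact h f (Ideal.subset_span hf)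
    · intro h f hf
      have h2 : Ideal.span (eqsA a b G D) ≤ RingHom.ker (eval₂Hom φ x) :=
        Ideal.span_le.2 fun g hg => h g hg
      exact h2 hf
  have hr : ∀ (l : Fin (D + 1)) (g : Pol O r n),
      eval₂Hom φ x (rename (embA l) g) = eval₂ φ (x ∘ embA l) g := fun l g => by
    rw [coe_eval₂Hom, eval₂_rename]
  have hC : ∀ z : O, eval₂Hom φ x (C z) = φ z := fun z => by simp
  rw [h1]
  unfold eqsA SolA
  simp only [Set.mem_union, or_imp, forall_and, Set.forall_mem_range, map_sub, map_mul, map_pow,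
    map_add, map_sum, map_one, hC, hr, eval₂Hom_X']

theorem trfA (K : Type) [Field K] [NumberField K] (r n : ℕ) (a b : 𝓞 K)
    (J : Type) [Finite J] (G : J → Pol (𝓞 K) r n) (σ : K →+* ℂ) (D : ℕ)
    (hG : ∀ V : Fin r → Fin 3 → ℂ, (∀ i, OnK (σ a) (σ b) (V i)) → AtMostA (toC σ) G V D) :
    ∃ p₁ : ℕ, ∀ p : ℕ, p.Prime → p₁ ≤ p → ∀ (k : Type) [Field k] [CharP k p] (φ : 𝓞 K →+* k)
      (V : Fin r → Fin 3 → k), (∀ i, OnK (φ a) (φ b) (V i)) → AtMostA φ G V D := by
  by_contra hcon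
  push Not at hcon
  obtain ⟨x, hx⟩ := Pool.Agent.W578.SA.TRK.main K (VarA r n D) (Ideal.span (eqsA a b G D)) (by
    intro N
    obtain ⟨p, hp, hNp, k, hk, hc, φ, V, hV, hA⟩ := hcon N
    unfold AtMostA at hA
    push Not at hA
    obtain ⟨x, hxG, hxp⟩ := hA
    refine ⟨p, hp, hNp, k, hk, hc, φ, ?_⟩
    have hW : ∀ i, ∃ W : Fin 3 → k, ∑ j, V i j * W j = 1 := fun i => exists_dual _ (hV i).1
    choose W hW using hW
    have hz : ∀ q : Fin (D + 1) × Fin (D + 1), ∃ z : Fin n → k, q.1 ≠ q.2 →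
        ∑ i : Fin n, (x q.1 i - x q.2 i) * z i = 1 := by
      intro q
      by_cases hq : q.1 = q.2
      · exact ⟨0, fun h => absurd hq h⟩
      · obtain ⟨z, hz⟩ := exists_dual (fun i => x q.1 i - x q.2 i) (by
          intro h0
          apply hxp q.1 q.2 hq
          funext i
          exact sub_eq_zero.1 (congrFun h0 i))
        exact ⟨z, fun _ => hz⟩
    choose z hz using hz
    refine ⟨Sum.elim (Sum.elim (fun ij => V ij.1 ij.2) (fun ij => W ij.1 ij.2))
        (Sum.elim (fun li => x li.1 li.2) (fun q => z q.1 q.2)), ?_⟩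
    rw [eqsA_iff]
    refine ⟨fun i => ?_, fun i => ?_, fun q => ?_, fun jl => ?_⟩
    · simp only [aV, Sum.elim_inl]
      exact sub_eq_zero.2 (hV i).2
    · simp only [aV, aW, Sum.elim_inl, Sum.elim_inr]
      exact sub_eq_zero.2 (hW i)
    · simp only [ax, az, Sum.elim_inl, Sum.elim_inr]
      exact sub_eq_zero.2 (hz q.1 q.2)
    · have h1 := hxG jl.2 jl.1
      unfold vl at h1
      rw [← h1]
      congr 1
      funext w
      rcases w with ij | i <;> rfl) σ
  have hx' : ∀ f ∈ Ideal.span (eqsA a b G D), eval₂ (toC σ) x f = 0 := hx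
  rw [eqsA_iff] at hx'
  obtain ⟨h1, h2, h5, h6⟩ := hx'
  have hV : ∀ i, OnK (σ a) (σ b) ((fun (i : Fin r) (j : Fin 3) => x (aV (i, j))) i) := by
    intro i
    refine ⟨fun h0 => ?_, sub_eq_zero.1 (h1 i)⟩
    have h7 := h2 i
    have h8 : ∀ j, x (aV (i, j)) = 0 := fun j => congrFun h0 j
    simp [h8] at h7
  have hxG : ∀ l j, vl (toC σ) (G j) (fun (i : Fin r) (j : Fin 3) => x (aV (i, j)))
      ((fun (l : Fin (D + 1)) (i : Fin n) => x (ax (l, i))) l) = 0 := by
    intro l j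
    have h7 := h6 (j, l)
    unfold vl
    rw [← h7]
    congr 1
    funext w
    rcases w with ij | i <;> rfl
  obtain ⟨l, l', hll, hc⟩ := hG _ hV _ hxG
  have h7 := h5 ⟨(l, l'), hll⟩
  have h8 : ∀ i, x (ax (l, i)) = x (ax (l', i)) := fun i => congrFun hc i
  simp only [h8] at h7
  rw [Finset.sum_eq_zero] at h7
  · norm_num at h7
  · intro i _
    ring

end Pool.Agent.Y213.I
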